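import Mathlib

set_option autoImplicit false

open Complex MeasureTheory Set Filter Topology

namespace Wg

theorem wp_inj_tendsto (L : PeriodPair) :
    Tendsto L.weierstrassP (𝓝[≠] 0) (Bornology.cobounded ℂ) := by
  refine tendsto_cobounded_of_meromorphicOrderAt_neg ?_
  rw [L.order_weierstrassP 0 (zero_mem _)]
  decide

theorem wp_inj_count (L : PeriodPair) : (L.lattice : Set ℂ).Countable := by
  have h : Countable L.lattice := L.latticeEquivProd.injective.countable
  exact Set.countable_coe_iff.1 h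

theorem wp_inj_conn (s : Set ℂ) (hs : s.Countable) : IsPreconnected sᶜ :=
  (hs.isConnected_compl_of_one_lt_rank (by simp)).isPreconnected

theorem wp_inj_near (L : PeriodPair) : ∀ᶠ w in 𝓝[≠] (0:ℂ), w ∉ L.lattice := by
  have h := L.compl_lattice_sdiff_singleton_mem_nhds 0
  rw [eventually_nhdsWithin_iff]
  filter_upwards [h] with w hw hw0 hmem
  exact hw ⟨hmem, hw0⟩

theorem wp_inj_unbdd (L : PeriodPair) (C : ℝ) : ∀ᶠ w in 𝓝[≠] (0:ℂ), C < ‖L.weierstrassP w‖ :=
  (tendsto_norm_cobounded_atTop.comp (wp_inj_tendsto L)).eventually_gt_atTop C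

theorem wp_inj_hasDeriv (L : PeriodPair) (z : ℂ) (hz : z ∉ L.lattice) :
    HasDerivAt L.weierstrassP (L.derivWeierstrassP z) z := by
  have h := (L.analyticOnNhd_weierstrassP z hz).differentiableAt.hasDerivAt
  rwa [L.deriv_weierstrassP] at h

theorem wp_inj_hasDeriv' (L : PeriodPair) (z : ℂ) (hz : z ∉ L.lattice) :
    HasDerivAt L.derivWeierstrassP (deriv L.derivWeierstrassP z) z :=
  (L.analyticOnNhd_derivWeierstrassP z hz).differentiableAt.hasDerivAt

theorem wp_inj_not_const (L : PeriodPair) : ¬ (EqOn L.derivWeierstrassP 0 (L.lattice : Set ℂ)ᶜ) := by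
  intro h
  have hc : ∃ c, ∀ w ∈ (L.lattice : Set ℂ)ᶜ, L.weierstrassP w = c := by
    have h1 : ∀ x ∈ (L.lattice : Set ℂ)ᶜ, ∀ y ∈ (L.lattice : Set ℂ)ᶜ,
        L.weierstrassP x = L.weierstrassP y := by
      intro x hx y hy
      refine L.isClosed_lattice.isOpen_compl.is_const_of_deriv_eq_zero
        (wp_inj_conn _ (wp_inj_count L)) L.differentiableOn_weierstrassP ?_ hx hy
      intro w hw
      rw [L.deriv_weierstrassP]
      exact h hw
    have hne : L.ω₁ / 2 ∈ (L.lattice : Set ℂ)ᶜ := L.ω₁_div_two_notMem_lattice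
    exact ⟨_, fun w hw => h1 w hw _ hne⟩
  obtain ⟨c, hc⟩ := hc
  have h2 := (wp_inj_near L).and (wp_inj_unbdd L ‖c‖)
  obtain ⟨w, hw1, hw2⟩ := h2.exists
  rw [hc w hw1] at hw2
  exact lt_irrefl _ hw2

theorem wp_inj_ode (L : PeriodPair) (z : ℂ) (hz : z ∉ L.lattice) :
    deriv L.derivWeierstrassP z = 6 * L.weierstrassP z ^ 2 - L.g₂ / 2 := by
  have hop : IsOpen (L.lattice : Set ℂ)ᶜ := L.isClosed_lattice.isOpen_compl
  have hmul : ∀ w, w ∉ L.lattice → L.derivWeierstrassP w *
      (deriv L.derivWeierstrassP w - (6 * L.weierstrassP w ^ 2 - L.g₂ / 2)) = 0 := by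
    intro w hw
    have d1 := wp_inj_hasDeriv L w hw
    have d2 := wp_inj_hasDeriv' L w hw
    have e1 : HasDerivAt (fun w => L.derivWeierstrassP w ^ 2)
        (2 * L.derivWeierstrassP w * deriv L.derivWeierstrassP w) w := by
      have := d2.fun_pow 2
      simpa using this
    have e2 : HasDerivAt (fun w => 4 * L.weierstrassP w ^ 3 - L.g₂ * L.weierstrassP w - L.g₃)
        (4 * (3 * L.weierstrassP w ^ 2 * L.derivWeierstrassP w) - L.g₂ * L.derivWeierstrassP w) w := by
      have := (((d1.pow 3).const_mul 4).sub (d1.const_mul L.g₂)).sub_const L.g₃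
      simpa using this
    have heq : (fun w => L.derivWeierstrassP w ^ 2) =ᶠ[𝓝 w]
        (fun w => 4 * L.weierstrassP w ^ 3 - L.g₂ * L.weierstrassP w - L.g₃) := by
      filter_upwards [hop.mem_nhds hw] with v hv using L.derivWeierstrassP_sq v hv
    have h3 := (e2.congr_of_eventuallyEq heq).unique e1
    linear_combination (-1 / 2) * h3
  have hA : AnalyticAt ℂ L.derivWeierstrassP z := L.analyticOnNhd_derivWeierstrassP z hz
  have hP : AnalyticAt ℂ L.weierstrassP z := L.analyticOnNhd_weierstrassP z hz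
  have hQ : ContinuousAt (fun w => deriv L.derivWeierstrassP w -
      (6 * L.weierstrassP w ^ 2 - L.g₂ / 2)) z := by
    have h1 := hA.deriv.continuousAt
    have h2 := hP.continuousAt
    fun_prop
  rcases hA.eventually_eq_zero_or_eventually_ne_zero with h | h
  · exfalso
    refine wp_inj_not_const L ?_
    exact L.analyticOnNhd_derivWeierstrassP.eqOn_zero_of_preconnected_of_eventuallyEq_zero
      (wp_inj_conn _ (wp_inj_count L)) hz h
  · have h1 : ∀ᶠ w in 𝓝[≠] z, deriv L.derivWeierstrassP w -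
        (6 * L.weierstrassP w ^ 2 - L.g₂ / 2) = 0 := by
      filter_upwards [h, nhdsWithin_le_nhds (hop.mem_nhds hz)] with w hw hwL
      exact (mul_eq_zero.1 (hmul w hwL)).resolve_left hw
    have h2 : Tendsto (fun w => deriv L.derivWeierstrassP w -
        (6 * L.weierstrassP w ^ 2 - L.g₂ / 2)) (𝓝[≠] z) (𝓝 0) :=
      (tendsto_congr' h1).2 tendsto_const_nhds
    have h3 := tendsto_nhds_unique (hQ.tendsto.mono_left nhdsWithin_le_nhds) h2
    exact sub_eq_zero.1 h3

theorem wp_inj_enat (x y : ℕ∞) (h : x = y + x + 1 + 1) : x = ⊤ := by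
  by_contra hx
  have hy : y ≠ ⊤ := by
    rintro rfl
    simp at h
    exact hx h
  lift x to ℕ using hx
  lift y to ℕ using hy
  norm_cast at h
  omega

theorem wp_inj_key (L : PeriodPair) (a b : ℂ) (ha : a ∉ L.lattice) (hb : b ∉ L.lattice)
    (h : L.weierstrassP a = L.weierstrassP b)
    (h' : L.derivWeierstrassP a = L.derivWeierstrassP b) : a - b ∈ L.lattice := by
  have hop : IsOpen (L.lattice : Set ℂ)ᶜ := L.isClosed_lattice.isOpen_compl
  have hca : Continuous (fun z : ℂ => a + z) := by fun_prop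
  have hcb : Continuous (fun z : ℂ => b + z) := by fun_prop
  set f : ℂ → ℂ := fun z => L.weierstrassP (a + z) - L.weierstrassP (b + z) with hf
  set f1 : ℂ → ℂ := fun z => L.derivWeierstrassP (a + z) - L.derivWeierstrassP (b + z) with hf1
  have hnear : ∀ᶠ z in 𝓝 (0:ℂ), a + z ∉ L.lattice ∧ b + z ∉ L.lattice := by
    have h1 : ∀ᶠ z in 𝓝 (0:ℂ), a + z ∈ (L.lattice : Set ℂ)ᶜ :=
      hca.continuousAt.eventually (hop.mem_nhds (by simpa using ha))
    have h2 : ∀ᶠ z in 𝓝 (0:ℂ), b + z ∈ (L.lattice : Set ℂ)ᶜ :=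
      hcb.continuousAt.eventually (hop.mem_nhds (by simpa using hb))
    exact h1.and h2
  have han : ∀ z, a + z ∉ L.lattice → b + z ∉ L.lattice → AnalyticAt ℂ f z ∧ AnalyticAt ℂ f1 z := by
    intro z h1 h2
    have g1 : AnalyticAt ℂ (fun z : ℂ => a + z) z := analyticAt_const.add analyticAt_id
    have g2 : AnalyticAt ℂ (fun z : ℂ => b + z) z := analyticAt_const.add analyticAt_id
    exact ⟨((L.analyticOnNhd_weierstrassP (a + z) h1).comp g1).sub
        ((L.analyticOnNhd_weierstrassP (b + z) h2).comp g2),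
      ((L.analyticOnNhd_derivWeierstrassP (a + z) h1).comp g1).sub
        ((L.analyticOnNhd_derivWeierstrassP (b + z) h2).comp g2)⟩
  have hdf : ∀ z, a + z ∉ L.lattice → b + z ∉ L.lattice → deriv f z = f1 z := by
    intro z h1 h2
    have d1 := (wp_inj_hasDeriv L (a + z) h1).comp_const_add a z
    have d2 := (wp_inj_hasDeriv L (b + z) h2).comp_const_add b z
    exact (d1.sub d2).deriv
  have hdf1 : ∀ z, a + z ∉ L.lattice → b + z ∉ L.lattice → deriv f1 z =
      (6 * (L.weierstrassP (a + z) + L.weierstrassP (b + z))) * f z := by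
    intro z h1 h2
    have d1 := (wp_inj_hasDeriv' L (a + z) h1).comp_const_add a z
    have d2 := (wp_inj_hasDeriv' L (b + z) h2).comp_const_add b z
    have h3 : deriv f1 z = deriv L.derivWeierstrassP (a + z) - deriv L.derivWeierstrassP (b + z) :=
      (d1.sub d2).deriv
    rw [h3, wp_inj_ode L _ h1, wp_inj_ode L _ h2]
    simp only [hf]
    ring
  obtain ⟨hfa, hf1a⟩ := han 0 (by simpa using ha) (by simpa using hb)
  have hf0 : f 0 = 0 := by simp [hf, h]
  have hf10 : f1 0 = 0 := by simp [hf1, h']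
  set A : ℂ → ℂ := fun z => 6 * (L.weierstrassP (a + z) + L.weierstrassP (b + z)) with hA
  have hAa : AnalyticAt ℂ A 0 := by
    have g1 : AnalyticAt ℂ (fun z : ℂ => a + z) 0 := analyticAt_const.add analyticAt_id
    have g2 : AnalyticAt ℂ (fun z : ℂ => b + z) 0 := analyticAt_const.add analyticAt_id
    have h1 : AnalyticAt ℂ (fun z => L.weierstrassP (a + z)) 0 :=
      (L.analyticOnNhd_weierstrassP (a + 0) (by simpa using ha)).comp g1
    have h2 : AnalyticAt ℂ (fun z => L.weierstrassP (b + z)) 0 :=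
      (L.analyticOnNhd_weierstrassP (b + 0) (by simpa using hb)).comp g2
    exact analyticAt_const.mul (h1.add h2)
  have o1 : analyticOrderAt f1 0 + 1 = analyticOrderAt f 0 := by
    have h1 := hfa.analyticOrderAt_deriv_add_one
    have h2 : deriv f =ᶠ[𝓝 0] f1 := by
      filter_upwards [hnear] with z hz using hdf z hz.1 hz.2
    rw [analyticOrderAt_congr h2] at h1
    simpa only [hf0, sub_zero] using h1
  have o2 : analyticOrderAt A 0 + analyticOrderAt f 0 + 1 = analyticOrderAt f1 0 := by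
    have h1 := hf1a.analyticOrderAt_deriv_add_one
    have h2 : deriv f1 =ᶠ[𝓝 0] A * f := by
      filter_upwards [hnear] with z hz using hdf1 z hz.1 hz.2
    rw [analyticOrderAt_congr h2, analyticOrderAt_mul hAa hfa] at h1
    simpa only [hf10, sub_zero] using h1
  have otop : analyticOrderAt f 0 = ⊤ := by
    refine wp_inj_enat _ (analyticOrderAt A 0) ?_
    rw [o2, o1]
  have hfz : ∀ᶠ z in 𝓝 (0:ℂ), f z = 0 := analyticOrderAt_eq_top.1 otop
  -- the identity theorem
  set B : Set ℂ := (fun z : ℂ => a + z) ⁻¹' (L.lattice : Set ℂ) ∪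
    (fun z : ℂ => b + z) ⁻¹' (L.lattice : Set ℂ) with hB
  have hBc : B.Countable := ((wp_inj_count L).preimage (add_right_injective a)).union
    ((wp_inj_count L).preimage (add_right_injective b))
  have hBmem : ∀ z, z ∈ Bᶜ ↔ a + z ∉ L.lattice ∧ b + z ∉ L.lattice := by
    intro z
    simp [hB]
  have hfB : AnalyticOnNhd ℂ f Bᶜ := fun z hz => (han z ((hBmem z).1 hz).1 ((hBmem z).1 hz).2).1
  have hzero : EqOn f 0 Bᶜ := hfB.eqOn_zero_of_preconnected_of_eventuallyEq_zero
    (wp_inj_conn B hBc) ((hBmem 0).2 ⟨by simpa using ha, by simpa using hb⟩) hfz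
  by_contra hab
  have hba : b - a ∉ L.lattice := by
    intro hc
    apply hab
    have := neg_mem hc
    rwa [neg_sub] at this
  have hcont : ContinuousAt (fun w : ℂ => L.weierstrassP (w + (b - a))) 0 := by
    have h1 : ContinuousAt L.weierstrassP (0 + (b - a)) := by
      rw [zero_add]
      exact (L.analyticOnNhd_weierstrassP _ hba).continuousAt
    exact ContinuousAt.comp (f := fun w : ℂ => w + (b - a)) h1 (by fun_prop)
  have e1 : ∀ᶠ w in 𝓝[≠] (0:ℂ), ‖L.weierstrassP (w + (b - a))‖ < ‖L.weierstrassP (0 + (b - a))‖ + 1 :=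
    (hcont.norm.tendsto.mono_left nhdsWithin_le_nhds).eventually_lt_const (by linarith)
  have e2 : ∀ᶠ w in 𝓝[≠] (0:ℂ), w + (b - a) ∉ L.lattice := by
    have h1 : Continuous (fun w : ℂ => w + (b - a)) := by fun_prop
    exact nhdsWithin_le_nhds (h1.continuousAt.eventually (hop.mem_nhds (by simpa using hba)))
  obtain ⟨w, w1, w2, w3, w4⟩ := (e1.and (e2.and ((wp_inj_near L).and
    (wp_inj_unbdd L (‖L.weierstrassP (0 + (b - a))‖ + 1))))).exists
  have h5 : w - a ∈ Bᶜ := by
    rw [hBmem]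
    have g1 : a + (w - a) = w := by ring
    have g2 : b + (w - a) = w + (b - a) := by ring
    rw [g1, g2]
    exact ⟨w3, w2⟩
  have h6 := hzero h5
  simp only [hf, Pi.zero_apply] at h6
  have g1 : a + (w - a) = w := by ring
  have g2 : b + (w - a) = w + (b - a) := by ring
  rw [g1, g2, sub_eq_zero] at h6
  rw [h6] at w4
  linarith

theorem wp_inj (L : PeriodPair) (a b : ℂ) (ha : a ∉ L.lattice) (hb : b ∉ L.lattice)
    (h : L.weierstrassP a = L.weierstrassP b) : a - b ∈ L.lattice ∨ a + b ∈ L.lattice := by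
  have hsq : L.derivWeierstrassP a ^ 2 = L.derivWeierstrassP b ^ 2 := by
    rw [L.derivWeierstrassP_sq a ha, L.derivWeierstrassP_sq b hb, h]
  rcases sq_eq_sq_iff_eq_or_eq_neg.1 hsq with h1 | h1
  · exact Or.inl (wp_inj_key L a b ha hb h h1)
  · right
    have h2 := wp_inj_key L a (-b) ha (fun hc => hb (by simpa using neg_mem hc))
      (by rw [L.weierstrassP_neg]; exact h) (by rw [L.derivWeierstrassP_neg]; exact h1)
    rwa [sub_neg_eq_add] at h2

end Wg
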